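import Mathlib

set_option autoImplicit false

/-!
# MP_c93117_an: operators on `C(X)` as kernels of positive measures on `X × Bool`

For a bounded operator `P` of `C(X)`, `X` compact Hausdorff, there are finite measures `M t` on
`X × Bool` with `P f t = ∫ sg z.2 * f z.1 ∂(M t)` and, for `g ≥ 0`,
`∫ g z.1 ∂(M t) = sup { P h t : |h| ≤ g }`.
-/

open MeasureTheory Set Topology
open scoped NNReal CompactlySupported

namespace Pool.Agent.Work.MP_c93117_an.Rz

/-- the sign -/
noncomputable def sg (b : Bool) : ℝ := if b then 1 else -1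

@[simp] lemma sg_true : sg true = 1 := by simp [sg]

@[simp] lemma sg_false : sg false = -1 := by simp [sg]

lemma sg_sq (b : Bool) : sg b ^ 2 = 1 := by cases b <;> simp

lemma sg_mul_self (b : Bool) : sg b * sg b = 1 := by cases b <;> simp

lemma abs_sg (b : Bool) : |sg b| = 1 := by cases b <;> simp

section functional

variable {X : Type*} [TopologicalSpace X] [CompactSpace X]

/-- the values of `φ` on the functions dominated by `g` -/
def vs (φ : C(X, ℝ) →L[ℝ] ℝ) (g : C(X, ℝ)) : Set ℝ :=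
  {r | ∃ h : C(X, ℝ), (∀ x, |h x| ≤ g x) ∧ φ h = r}

/-- the total variation of `φ` at `g ≥ 0` -/
noncomputable def av (φ : C(X, ℝ) →L[ℝ] ℝ) (g : C(X, ℝ)) : ℝ := sSup (vs φ g)

lemma norm_le_of_dom {g h : C(X, ℝ)} (hh : ∀ x, |h x| ≤ g x) : ‖h‖ ≤ ‖g‖ := by
  rw [ContinuousMap.norm_le _ (norm_nonneg g)]
  intro x
  rw [Real.norm_eq_abs]
  exact (hh x).trans ((le_abs_self _).trans (g.norm_coe_le_norm x))

lemma vs_bdd (φ : C(X, ℝ) →L[ℝ] ℝ) (g : C(X, ℝ)) : BddAbove (vs φ g) := by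
  refine ⟨‖φ‖ * ‖g‖, ?_⟩
  rintro r ⟨h, hh, rfl⟩
  calc φ h ≤ ‖φ h‖ := Real.le_norm_self _
    _ ≤ ‖φ‖ * ‖h‖ := φ.le_opNorm h
    _ ≤ ‖φ‖ * ‖g‖ := by gcongr; exact norm_le_of_dom hh

lemma vs_nonempty (φ : C(X, ℝ) →L[ℝ] ℝ) {g : C(X, ℝ)} (hg : ∀ x, 0 ≤ g x) : (vs φ g).Nonempty :=
  ⟨0, 0, fun x => by simpa using hg x, map_zero φ⟩

lemma le_av (φ : C(X, ℝ) →L[ℝ] ℝ) {g h : C(X, ℝ)} (hh : ∀ x, |h x| ≤ g x) : φ h ≤ av φ g :=
  le_csSup (vs_bdd φ g) ⟨h, hh, rfl⟩

lemma abs_le_av (φ : C(X, ℝ) →L[ℝ] ℝ) {g h : C(X, ℝ)} (hh : ∀ x, |h x| ≤ g x) :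
    |φ h| ≤ av φ g := by
  rw [abs_le]
  constructor
  · have : φ (-h) ≤ av φ g := le_av φ (fun x => by simpa using hh x)
    rw [map_neg] at this
    linarith
  · exact le_av φ hh

lemma av_le (φ : C(X, ℝ) →L[ℝ] ℝ) {g : C(X, ℝ)} (hg : ∀ x, 0 ≤ g x) {c : ℝ}
    (h : ∀ h : C(X, ℝ), (∀ x, |h x| ≤ g x) → φ h ≤ c) : av φ g ≤ c := by
  apply csSup_le (vs_nonempty φ hg)
  rintro r ⟨k, hk, rfl⟩
  exact h k hk

lemma av_nonneg (φ : C(X, ℝ) →L[ℝ] ℝ) {g : C(X, ℝ)} (hg : ∀ x, 0 ≤ g x) : 0 ≤ av φ g := by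
  have : φ 0 ≤ av φ g := le_av φ (fun x => by simpa using hg x)
  rwa [map_zero] at this

lemma av_le_norm (φ : C(X, ℝ) →L[ℝ] ℝ) {g : C(X, ℝ)} (hg : ∀ x, 0 ≤ g x) :
    av φ g ≤ ‖φ‖ * ‖g‖ := by
  apply av_le φ hg
  intro h hh
  calc φ h ≤ ‖φ h‖ := Real.le_norm_self _
    _ ≤ ‖φ‖ * ‖h‖ := φ.le_opNorm h
    _ ≤ ‖φ‖ * ‖g‖ := by gcongr; exact norm_le_of_dom hh

lemma av_mono (φ : C(X, ℝ) →L[ℝ] ℝ) {g g' : C(X, ℝ)} (hg : ∀ x, 0 ≤ g x)
    (h : ∀ x, g x ≤ g' x) : av φ g ≤ av φ g' :=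
  av_le φ hg fun _ hk => le_av φ fun x => (hk x).trans (h x)

/-- additivity -/
lemma av_add (φ : C(X, ℝ) →L[ℝ] ℝ) {g g' : C(X, ℝ)} (hg : ∀ x, 0 ≤ g x) (hg' : ∀ x, 0 ≤ g' x) :
    av φ (g + g') = av φ g + av φ g' := by
  apply le_antisymm
  · apply av_le φ (fun x => by simpa using add_nonneg (hg x) (hg' x))
    intro h hh
    let h1 : C(X, ℝ) := ⟨fun x => max (-g x) (min (h x) (g x)), by fun_prop⟩
    have e : h = h1 + (h - h1) := by abel
    rw [e, map_add]
    apply add_le_add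
    · apply le_av
      intro x
      rw [abs_le]
      refine ⟨le_max_left _ _, max_le ?_ (min_le_right _ _)⟩
      linarith [hg x]
    · apply le_av
      intro x
      have hx := hh x
      rw [ContinuousMap.add_apply, abs_le] at hx
      have h0 := hg x
      have h0' := hg' x
      change |h x - max (-g x) (min (h x) (g x))| ≤ g' x
      rw [abs_le]
      rcases le_total (h x) (g x) with h2 | h2
      · rw [min_eq_left h2]
        rcases le_total (-g x) (h x) with h3 | h3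
        · rw [max_eq_right h3]
          constructor <;> linarith
        · rw [max_eq_left h3]
          constructor <;> linarith
      · rw [min_eq_right h2, max_eq_right (by linarith)]
        constructor <;> linarith
  · have : ∀ h' : C(X, ℝ), (∀ x, |h' x| ≤ g' x) → φ h' ≤ av φ (g + g') - av φ g := by
      intro h' hh'
      have : av φ g ≤ av φ (g + g') - φ h' := by
        apply av_le φ hg
        intro h hh
        have := le_av φ (g := g + g') (h := h + h') (fun x => by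
          rw [ContinuousMap.add_apply, ContinuousMap.add_apply]
          exact (abs_add_le _ _).trans (add_le_add (hh x) (hh' x)))
        rw [map_add] at this
        linarith
      linarith
    have := av_le φ hg' this
    linarith

lemma av_smul (φ : C(X, ℝ) →L[ℝ] ℝ) {g : C(X, ℝ)} (hg : ∀ x, 0 ≤ g x) {c : ℝ} (hc : 0 ≤ c) :
    av φ (c • g) = c * av φ g := by
  rcases hc.eq_or_lt with rfl | hc
  · rw [zero_smul, zero_mul]
    apply le_antisymm
    · apply av_le φ (fun x => by simp)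
      intro h hh
      have : h = 0 := by
        ext x
        have := hh x
        rw [ContinuousMap.zero_apply] at this
        simpa using abs_nonpos_iff.mp this
      rw [this, map_zero]
    · exact av_nonneg φ (fun x => by simp)
  · apply le_antisymm
    · apply av_le φ (fun x => by
        rw [ContinuousMap.smul_apply, smul_eq_mul]; exact mul_nonneg hc.le (hg x))
      intro h hh
      have := le_av φ (g := g) (h := c⁻¹ • h) (fun x => by
        have := hh x
        rw [ContinuousMap.smul_apply, smul_eq_mul] at this ⊢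
        rw [abs_mul, abs_of_pos (inv_pos.mpr hc), inv_mul_le_iff₀ hc]
        exact this)
      rw [map_smul, smul_eq_mul, inv_mul_le_iff₀ hc] at this
      exact this
    · rw [← le_div_iff₀' hc]
      apply av_le φ hg
      intro h hh
      have := le_av φ (g := c • g) (h := c • h) (fun x => by
        rw [ContinuousMap.smul_apply, ContinuousMap.smul_apply, smul_eq_mul, smul_eq_mul, abs_mul,
          abs_of_pos hc]
        exact mul_le_mul_of_nonneg_left (hh x) hc.le)
      rw [map_smul, smul_eq_mul] at this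
      rwa [le_div_iff₀' hc]

/-- the restriction of a function on `X × Bool` to one of the two copies of `X` -/
def sl (F : C_c(X × Bool, ℝ≥0)) (b : Bool) : C(X, ℝ) := ⟨fun x => (F (x, b) : ℝ), by fun_prop⟩

lemma sl_nonneg (F : C_c(X × Bool, ℝ≥0)) (b : Bool) (x : X) : 0 ≤ sl F b x := NNReal.coe_nonneg _

lemma sl_add (F G : C_c(X × Bool, ℝ≥0)) (b : Bool) : sl (F + G) b = sl F b + sl G b := by
  ext x
  simp [sl]

lemma sl_smul (c : ℝ≥0) (F : C_c(X × Bool, ℝ≥0)) (b : Bool) :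
    sl (c • F) b = (c : ℝ) • sl F b := by
  ext x
  simp [sl]

/-- the value of the positive functional -/
noncomputable def lv (φ : C(X, ℝ) →L[ℝ] ℝ) (F : C_c(X × Bool, ℝ≥0)) : ℝ :=
  (av φ (sl F true + sl F false) + φ (sl F true - sl F false)) / 2

lemma lv_nonneg (φ : C(X, ℝ) →L[ℝ] ℝ) (F : C_c(X × Bool, ℝ≥0)) : 0 ≤ lv φ F := by
  have := abs_le_av φ (g := sl F true + sl F false) (h := sl F true - sl F false) (fun x => by
    rw [ContinuousMap.add_apply, ContinuousMap.sub_apply, abs_le]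
    constructor <;> linarith [sl_nonneg F true x, sl_nonneg F false x])
  rw [abs_le] at this
  unfold lv
  linarith [this.1]

/-- the positive functional on `C(X × Bool)` -/
noncomputable def lam (φ : C(X, ℝ) →L[ℝ] ℝ) : C_c(X × Bool, ℝ≥0) →ₗ[ℝ≥0] ℝ≥0 where
  toFun F := ⟨lv φ F, lv_nonneg φ F⟩
  map_add' F G := by
    ext
    rw [NNReal.coe_add]
    change lv φ (F + G) = lv φ F + lv φ G
    unfold lv
    rw [sl_add, sl_add]
    have e1 : sl F true + sl G true + (sl F false + sl G false) =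
        (sl F true + sl F false) + (sl G true + sl G false) := by abel
    have e2 : sl F true + sl G true - (sl F false + sl G false) =
        (sl F true - sl F false) + (sl G true - sl G false) := by abel
    rw [e1, e2, map_add, av_add]
    · ring
    · intro x
      rw [ContinuousMap.add_apply]
      exact add_nonneg (sl_nonneg F true x) (sl_nonneg F false x)
    · intro x
      rw [ContinuousMap.add_apply]
      exact add_nonneg (sl_nonneg G true x) (sl_nonneg G false x)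
  map_smul' c F := by
    ext
    rw [RingHom.id_apply, smul_eq_mul, NNReal.coe_mul]
    change lv φ (c • F) = (c : ℝ) * lv φ F
    unfold lv
    rw [sl_smul, sl_smul, ← smul_add, ← smul_sub, map_smul, av_smul]
    · rw [smul_eq_mul]
      ring
    · intro x
      rw [ContinuousMap.add_apply]
      exact add_nonneg (sl_nonneg F true x) (sl_nonneg F false x)
    · exact c.2

end functional

section measure

variable {X : Type*} [TopologicalSpace X] [CompactSpace X] [T2Space X] [MeasurableSpace X]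
  [BorelSpace X]

/-- a function on `X × Bool` from two functions on `X` -/
noncomputable def gl (f g : C(X, ℝ)) : C_c(X × Bool, ℝ≥0) :=
  ⟨⟨fun z => (if z.2 then f z.1 else g z.1).toNNReal, by
    apply continuous_real_toNNReal.comp
    rw [continuous_prod_of_discrete_right]
    intro b
    cases b <;> simp <;> fun_prop⟩, HasCompactSupport.of_compactSpace _⟩

omit [T2Space X] [MeasurableSpace X] [BorelSpace X] in
lemma gl_apply (f g : C(X, ℝ)) (z : X × Bool) (hf : ∀ x, 0 ≤ f x) (hg : ∀ x, 0 ≤ g x) :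
    ((gl f g z : ℝ≥0) : ℝ) = if z.2 then f z.1 else g z.1 := by
  change (((if z.2 then f z.1 else g z.1).toNNReal : ℝ≥0) : ℝ) = _
  rw [Real.coe_toNNReal]
  split_ifs
  · exact hf _
  · exact hg _

omit [T2Space X] [MeasurableSpace X] [BorelSpace X] in
lemma lv_gl (φ : C(X, ℝ) →L[ℝ] ℝ) (f g : C(X, ℝ)) (hf : ∀ x, 0 ≤ f x) (hg : ∀ x, 0 ≤ g x) :
    lv φ (gl f g) = (av φ (f + g) + φ (f - g)) / 2 := by
  have e1 : sl (gl f g) true = f := by
    ext x
    exact (gl_apply f g (x, true) hf hg).trans (by simp)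
  have e2 : sl (gl f g) false = g := by
    ext x
    exact (gl_apply f g (x, false) hf hg).trans (by simp)
  unfold lv
  rw [e1, e2]

/-- the representing measure on `X × Bool` -/
noncomputable def rm (φ : C(X, ℝ) →L[ℝ] ℝ) : Measure (X × Bool) :=
  NNRealRMK.rieszMeasure (lam φ)

instance rm_finite (φ : C(X, ℝ) →L[ℝ] ℝ) : IsFiniteMeasure (rm φ) := by
  unfold rm
  infer_instance

lemma integral_gl (φ : C(X, ℝ) →L[ℝ] ℝ) (f g : C(X, ℝ)) (hf : ∀ x, 0 ≤ f x)
    (hg : ∀ x, 0 ≤ g x) : ∫ z, (if z.2 then f z.1 else g z.1) ∂(rm φ) =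
      (av φ (f + g) + φ (f - g)) / 2 := by
  have h := NNRealRMK.integral_rieszMeasure (lam φ) (gl f g)
  have e : ((lam φ (gl f g) : ℝ≥0) : ℝ) = lv φ (gl f g) := rfl
  rw [e, lv_gl φ f g hf hg] at h
  rw [← h]
  apply integral_congr_ae
  filter_upwards with z
  exact (gl_apply f g z hf hg).symm

omit [T2Space X] in
lemma integrable_two (μ : Measure (X × Bool)) [IsFiniteMeasure μ] (f g : C(X, ℝ)) :
    Integrable (fun z : X × Bool => if z.2 then f z.1 else g z.1) μ := by
  have hc : Continuous fun z : X × Bool => if z.2 then f z.1 else g z.1 := by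
    rw [continuous_prod_of_discrete_right]
    intro b
    cases b <;> simp <;> fun_prop
  apply hc.integrable_of_hasCompactSupport
  exact HasCompactSupport.of_compactSpace _

/-- representation of `φ` -/
lemma integral_sg (φ : C(X, ℝ) →L[ℝ] ℝ) (f : C(X, ℝ)) :
    ∫ z, sg z.2 * f z.1 ∂(rm φ) = φ f := by
  let fp : C(X, ℝ) := ⟨fun x => max (f x) 0, by fun_prop⟩
  let fm : C(X, ℝ) := ⟨fun x => max (-f x) 0, by fun_prop⟩
  have hp : ∀ x, 0 ≤ fp x := fun x => le_max_right _ _
  have hm : ∀ x, 0 ≤ fm x := fun x => le_max_right _ _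
  have hf : fp - fm = f := by
    ext x
    change max (f x) 0 - max (-f x) 0 = f x
    rcases le_total 0 (f x) with h | h
    · rw [max_eq_left h, max_eq_right (by linarith)]; ring
    · rw [max_eq_right h, max_eq_left (by linarith)]; ring
  have h1 := integral_gl φ fp fm hp hm
  have h2 := integral_gl φ fm fp hm hp
  have e : ∀ z : X × Bool, sg z.2 * f z.1 =
      (if z.2 then fp z.1 else fm z.1) - (if z.2 then fm z.1 else fp z.1) := by
    rintro ⟨x, b⟩
    rw [← hf]
    cases b <;> simp [sg]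
  rw [integral_congr_ae (Filter.Eventually.of_forall e), integral_sub (integrable_two _ _ _)
    (integrable_two _ _ _), h1, h2, add_comm fm fp, ← neg_sub fp fm, map_neg, hf]
  ring

/-- the total variation -/
lemma integral_abs (φ : C(X, ℝ) →L[ℝ] ℝ) (g : C(X, ℝ)) (hg : ∀ x, 0 ≤ g x) :
    ∫ z, g z.1 ∂(rm φ) = av φ g := by
  have h1 := integral_gl φ g g hg hg
  have e : ∀ z : X × Bool, (if z.2 then g z.1 else g z.1) = g z.1 := fun z => by simp
  rw [integral_congr_ae (Filter.Eventually.of_forall e)] at h1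
  rw [h1, sub_self, map_zero, add_zero]
  have e2 : g + g = (2 : ℝ) • g := by rw [two_smul]
  rw [e2, av_smul φ hg (by norm_num)]
  ring

end measure

/-! ### the kernel of an operator -/

section kernel

variable {X : Type*} [TopologicalSpace X] [CompactSpace X] [T2Space X] [MeasurableSpace X]
  [BorelSpace X]

/-- the functional `f ↦ P f t` -/
noncomputable def ev (P : C(X, ℝ) →L[ℝ] C(X, ℝ)) (t : X) : C(X, ℝ) →L[ℝ] ℝ :=
  (ContinuousMap.evalCLM ℝ t).comp P

omit [T2Space X] [MeasurableSpace X] [BorelSpace X] in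
@[simp] lemma ev_apply (P : C(X, ℝ) →L[ℝ] C(X, ℝ)) (t : X) (f : C(X, ℝ)) : ev P t f = P f t := rfl

/-- The total variation of the kernel of `P` at `t`, applied to `g`. -/
noncomputable def mv (P : C(X, ℝ) →L[ℝ] C(X, ℝ)) (t : X) (g : C(X, ℝ)) : ℝ := av (ev P t) g

/-- the kernel of `P`: measures on `X × Bool` -/
noncomputable def MK (P : C(X, ℝ) →L[ℝ] C(X, ℝ)) (t : X) : Measure (X × Bool) := rm (ev P t)

instance MK_finite (P : C(X, ℝ) →L[ℝ] C(X, ℝ)) (t : X) : IsFiniteMeasure (MK P t) := by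
  unfold MK; infer_instance

lemma MK_rep (P : C(X, ℝ) →L[ℝ] C(X, ℝ)) (t : X) (f : C(X, ℝ)) :
    ∫ z, sg z.2 * f z.1 ∂(MK P t) = P f t := integral_sg (ev P t) f

lemma MK_abs (P : C(X, ℝ) →L[ℝ] C(X, ℝ)) (t : X) {g : C(X, ℝ)} (hg : ∀ x, 0 ≤ g x) :
    ∫ z, g z.1 ∂(MK P t) = mv P t g := integral_abs (ev P t) g hg

omit [T2Space X] [MeasurableSpace X] [BorelSpace X] in
lemma mv_nonneg (P : C(X, ℝ) →L[ℝ] C(X, ℝ)) (t : X) {g : C(X, ℝ)} (hg : ∀ x, 0 ≤ g x) :
    0 ≤ mv P t g := av_nonneg _ hg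

omit [T2Space X] [MeasurableSpace X] [BorelSpace X] in
lemma abs_le_mv (P : C(X, ℝ) →L[ℝ] C(X, ℝ)) (t : X) {g h : C(X, ℝ)} (hh : ∀ x, |h x| ≤ g x) :
    |P h t| ≤ mv P t g := abs_le_av (ev P t) hh

omit [T2Space X] [MeasurableSpace X] [BorelSpace X] in
lemma ev_norm (P : C(X, ℝ) →L[ℝ] C(X, ℝ)) (t : X) : ‖ev P t‖ ≤ ‖P‖ := by
  refine ContinuousLinearMap.opNorm_le_bound _ (norm_nonneg P) fun f => ?_
  rw [ev_apply]
  exact ((P f).norm_coe_le_norm t).trans (P.le_opNorm f)

omit [T2Space X] [MeasurableSpace X] [BorelSpace X] in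
lemma mv_le (P : C(X, ℝ) →L[ℝ] C(X, ℝ)) (t : X) {g : C(X, ℝ)} (hg : ∀ x, 0 ≤ g x) :
    mv P t g ≤ ‖P‖ * ‖g‖ := by
  refine (av_le_norm (ev P t) hg).trans ?_
  gcongr
  exact ev_norm P t

omit [T2Space X] [MeasurableSpace X] [BorelSpace X] in
lemma mv_one_le (P : C(X, ℝ) →L[ℝ] C(X, ℝ)) (t : X) : mv P t 1 ≤ ‖P‖ := by
  refine (mv_le P t (g := 1) (fun x => by simp)).trans ?_
  calc ‖P‖ * ‖(1 : C(X, ℝ))‖ ≤ ‖P‖ * 1 := by
        gcongr
        rw [ContinuousMap.norm_le _ zero_le_one]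
        intro x
        simp
    _ = ‖P‖ := mul_one _

/-- total mass -/
lemma MK_univ (P : C(X, ℝ) →L[ℝ] C(X, ℝ)) (t : X) : (MK P t).real Set.univ = mv P t 1 := by
  rw [← MK_abs P t (g := 1) (fun x => by simp)]
  simp

omit [T2Space X] [MeasurableSpace X] [BorelSpace X] in
lemma mv_lsc (P : C(X, ℝ) →L[ℝ] C(X, ℝ)) {g : C(X, ℝ)} (hg : ∀ x, 0 ≤ g x) :
    LowerSemicontinuous fun t => mv P t g := by
  intro t y hy
  obtain ⟨r, ⟨h, hh, rfl⟩, hr⟩ := exists_lt_of_lt_csSup (vs_nonempty (ev P t) hg) hy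
  have hc : Continuous fun t => P h t := (P h).continuous
  have : ∀ᶠ t' in 𝓝 t, y < P h t' := hc.continuousAt.eventually_const_lt hr
  filter_upwards [this] with t' ht'
  exact lt_of_lt_of_le ht' (le_av (ev P t') hh)

omit [T2Space X] in
lemma mv_meas (P : C(X, ℝ) →L[ℝ] C(X, ℝ)) {g : C(X, ℝ)} (hg : ∀ x, 0 ≤ g x) :
    Measurable fun t => mv P t g := (mv_lsc P hg).measurable

omit [T2Space X] in
lemma mv_integrable (P : C(X, ℝ) →L[ℝ] C(X, ℝ)) {g : C(X, ℝ)} (hg : ∀ x, 0 ≤ g x)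
    (μ : Measure (X × Bool)) [IsFiniteMeasure μ] : Integrable (fun z => mv P z.1 g) μ := by
  apply Integrable.of_bound ((mv_meas P hg).comp measurable_fst).aestronglyMeasurable (‖P‖ * ‖g‖)
  filter_upwards with z
  change |mv P z.1 g| ≤ _
  rw [abs_of_nonneg (mv_nonneg P z.1 hg)]
  exact mv_le P z.1 hg

omit [T2Space X] in
lemma cont_integrable (f : C(X, ℝ)) (μ : Measure (X × Bool)) [IsFiniteMeasure μ] :
    Integrable (fun z : X × Bool => f z.1) μ := by
  have hc : Continuous fun z : X × Bool => f z.1 := by fun_prop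
  apply hc.integrable_of_hasCompactSupport
  exact HasCompactSupport.of_compactSpace _

/-- `m_t ≤ ∫ m_s dm_t(s)` for a projection -/
lemma mv_le_integral (P : C(X, ℝ) →L[ℝ] C(X, ℝ)) (hP : ∀ f, P (P f) = P f) (t : X) {g : C(X, ℝ)}
    (hg : ∀ x, 0 ≤ g x) : mv P t g ≤ ∫ z, mv P z.1 g ∂(MK P t) := by
  apply av_le (ev P t) hg
  intro h hh
  rw [ev_apply, ← hP h, ← MK_rep P t (P h)]
  have hc : Continuous fun z : X × Bool => sg z.2 * P h z.1 := by
    rw [continuous_prod_of_discrete_right]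
    intro b
    fun_prop
  apply integral_mono (hc.integrable_of_hasCompactSupport (HasCompactSupport.of_compactSpace _))
    (mv_integrable P hg _)
  intro z
  refine (le_abs_self _).trans ?_
  rw [abs_mul, abs_sg, one_mul]
  exact abs_le_mv P z.1 hh

end kernel

end Pool.Agent.Work.MP_c93117_an.Rz
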